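import Pool.Agent.H199BIL.Stmts

/-!
Project H199-BIL, TaskAE: almost every convex polygon has irrational angles.
-/

set_option autoImplicit false

namespace Pool.Agent.H199BIL

namespace AEAux

open Complex ComplexConjugate MeasureTheory

/-- the real subspace `w c = ζ conj w` -/
def W (c ζ : ℂ) : Submodule ℝ ℂ where
  carrier := {w | w * c = ζ * conj w}
  add_mem' := by
    intro v w hv hw
    simp only [Set.mem_ofPred_eq] at hv hw ⊢
    rw [map_add, add_mul, mul_add, hv, hw]
  zero_mem' := by simp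
  smul_mem' := by
    intro r w hw
    simp only [Set.mem_ofPred_eq] at hw ⊢
    rw [Complex.real_smul, map_mul, Complex.conj_ofReal, mul_assoc, hw]
    ring

theorem W_ne_top {c : ℂ} (hc : c ≠ 0) (ζ : ℂ) : W c ζ ≠ ⊤ := by
  intro h
  have h1 : (1 : ℂ) ∈ W c ζ := by rw [h]; trivial
  have h2 : I ∈ W c ζ := by rw [h]; trivial
  have h1' : (1 : ℂ) * c = ζ * conj 1 := h1
  have h2' : I * c = ζ * conj I := h2
  rw [map_one, one_mul, mul_one] at h1'
  rw [conj_I, ← h1'] at h2'
  have h3 : I * c = 0 := by linear_combination (1 / 2) * h2'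
  rcases mul_eq_zero.1 h3 with h | h
  · exact I_ne_zero h
  · exact hc h

theorem line {c : ℂ} (hc : c ≠ 0) (a : ℂ) (k : ℕ) (hk : 0 < k) :
    ∀ᵐ x : ℂ, x + a ≠ 0 → ((x + a) / conj (x + a) * c) ^ k ≠ 1 := by
  have h1 : ∀ᵐ x : ℂ, ∀ ζ ∈ (Polynomial.nthRootsFinset k (1 : ℂ) : Set ℂ), x + a ∉ W c ζ := by
    rw [ae_ball_iff (Finset.countable_toSet _)]
    intro ζ _
    rw [ae_iff]
    simp only [not_not]
    have h2 := measure_preimage_add_right (volume : Measure ℂ) a (W c ζ : Set ℂ)
    rw [Measure.addHaar_submodule volume (W c ζ) (W_ne_top hc ζ)] at h2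
    exact h2
  filter_upwards [h1] with x hx hne hpow
  refine hx ((x + a) / conj (x + a) * c) ?_ ?_
  · rw [Finset.mem_coe, Polynomial.mem_nthRootsFinset hk]
    exact hpow
  · change (x + a) * c = (x + a) / conj (x + a) * c * conj (x + a)
    have h3 : conj (x + a) ≠ 0 := by
      intro h
      exact hne ((map_eq_zero _).1 h)
    field_simp

theorem measurable_edge {m : ℕ} (i : Fin (m + 3)) :
    Measurable fun z : Fin (m + 3) → ℂ => edge z i := by
  unfold edge
  exact (measurable_pi_apply _).sub (measurable_pi_apply _)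

theorem one_ne {m : ℕ} (i : Fin (m + 3)) : i + 1 ≠ i := by
  intro h
  simp at h

theorem two_ne {m : ℕ} (i : Fin (m + 3)) : i + 1 + 1 ≠ i := by
  intro h
  have h1 : (1 : Fin (m + 3)) + 1 = 0 := by
    have h2 : i + (1 + 1) = i + 0 := by rw [← add_assoc, h, add_zero]
    exact add_left_cancel h2
  have h2 := congrArg Fin.val h1
  rw [Fin.val_add] at h2
  have h3 : ((1 : Fin (m + 3)) : ℕ) = 1 := rfl
  rw [h3] at h2
  have h4 : ((0 : Fin (m + 3)) : ℕ) = 0 := rfl
  rw [h4, Nat.mod_eq_of_lt (by omega)] at h2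
  omega

theorem main {m : ℕ} (i : Fin (m + 3)) (k : ℕ) (hk : 0 < k) :
    ∀ᵐ z : Fin (m + 3) → ℂ, z ∈ {z : Fin (m + 3) → ℂ | edge z i ≠ 0 → edge z (i + 1) ≠ 0 →
      (edge z (i + 1) / conj (edge z (i + 1)) * (conj (edge z i) / edge z i)) ^ k ≠ 1} := by
  have hc : Measurable fun w : ℂ => conj w := Complex.continuous_conj.measurable
  refine ae_mem_of_ae_add_linearMap_mem
    (LinearMap.single ℝ (fun _ : Fin (m + 3) => ℂ) (i + 1 + 1)) (volume : Measure ℂ)
    (volume : Measure (Fin (m + 3) → ℂ)) ?_ ?_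
  · have h1 : MeasurableSet {z : Fin (m + 3) → ℂ | edge z i = 0} :=
      measurable_edge i (measurableSet_singleton 0)
    have h2 : MeasurableSet {z : Fin (m + 3) → ℂ | edge z (i + 1) = 0} :=
      measurable_edge (i + 1) (measurableSet_singleton 0)
    have h3 : MeasurableSet {z : Fin (m + 3) → ℂ |
        (edge z (i + 1) / conj (edge z (i + 1)) * (conj (edge z i) / edge z i)) ^ k = 1} := by
      have hF : Measurable fun z : Fin (m + 3) → ℂ =>
          (edge z (i + 1) / conj (edge z (i + 1)) * (conj (edge z i) / edge z i)) ^ k :=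
        ((((measurable_edge (i + 1)).div (hc.comp (measurable_edge (i + 1)))).mul
          ((hc.comp (measurable_edge i)).div (measurable_edge i))).pow_const k)
      exact hF (measurableSet_singleton 1)
    have h4 := (h1.union h2).union h3.compl
    refine h4.congr (Set.ext fun z => ?_)
    change ((edge z i = 0 ∨ edge z (i + 1) = 0) ∨ ¬ (edge z (i + 1) / conj (edge z (i + 1)) *
      (conj (edge z i) / edge z i)) ^ k = 1) ↔ (edge z i ≠ 0 → edge z (i + 1) ≠ 0 →
      (edge z (i + 1) / conj (edge z (i + 1)) * (conj (edge z i) / edge z i)) ^ k ≠ 1)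
    tauto
  · intro y
    set e : ℂ := y (i + 1) - y i with he
    set a : ℂ := y (i + 1 + 1) - y (i + 1) with ha
    have e1 : ∀ x : ℂ, edge (y + LinearMap.single ℝ (fun _ : Fin (m + 3) => ℂ) (i + 1 + 1) x) i =
        e := by
      intro x
      unfold edge
      simp only [Pi.add_apply, LinearMap.single_apply]
      rw [Pi.single_eq_of_ne (one_ne (i + 1)).symm, Pi.single_eq_of_ne (two_ne i).symm]
      rw [add_zero, add_zero]
    have e2 : ∀ x : ℂ, edge (y + LinearMap.single ℝ (fun _ : Fin (m + 3) => ℂ) (i + 1 + 1) x)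
        (i + 1) = x + a := by
      intro x
      unfold edge
      simp only [Pi.add_apply, LinearMap.single_apply]
      rw [Pi.single_eq_same, Pi.single_eq_of_ne (one_ne (i + 1)).symm]
      rw [add_zero, ha]
      ring
    simp only [Set.mem_ofPred_eq, e1, e2]
    by_cases h0 : e = 0
    · exact Filter.Eventually.of_forall fun x h => absurd h0 h
    · have hce : conj e / e ≠ 0 := by
        refine div_ne_zero ?_ h0
        intro h
        exact h0 ((map_eq_zero _).1 h)
      filter_upwards [line hce a k hk] with x hx _ hne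
      exact hx hne

theorem edge_ne {m : ℕ} {z : Fin (m + 3) → ℂ} (hz : IsConvexPolygon z) (i : Fin (m + 3)) :
    edge z i ≠ 0 := by
  intro h
  have h1 := hz i (i + 1 + 1) (two_ne i) (one_ne (i + 1))
  rw [h] at h1
  simp [cross] at h1

end AEAux

theorem taskAE : TaskAE := by
  intro m
  have h1 : ∀ᵐ z : Fin (m + 3) → ℂ, ∀ i : Fin (m + 3), ∀ k : ℕ, 0 < k → edge z i ≠ 0 →
      edge z (i + 1) ≠ 0 →
      (edge z (i + 1) / (starRingEnd ℂ) (edge z (i + 1)) *
        ((starRingEnd ℂ) (edge z i) / edge z i)) ^ k ≠ 1 := by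
    rw [MeasureTheory.ae_all_iff]
    intro i
    rw [MeasureTheory.ae_all_iff]
    intro k
    by_cases hk : 0 < k
    · filter_upwards [AEAux.main i k hk] with z hz _
      exact hz
    · exact Filter.Eventually.of_forall fun z h => absurd h hk
  filter_upwards [h1] with z hz hconv i k hk
  exact hz i k hk (AEAux.edge_ne hconv i) (AEAux.edge_ne hconv (i + 1))

end Pool.Agent.H199BIL
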