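import Pool.Agent.H199BIL.Stmts

set_option autoImplicit false
set_option maxHeartbeats 4000000

/-! Task Compact of project H199-BIL (helper925) -/

namespace Pool.Agent.H199BIL

open Complex ComplexConjugate MeasureTheory

namespace Cpt

lemma cross_self (e : ℂ) : cross e e = 0 := by unfold cross; ring

lemma cross_zero (e : ℂ) : cross e 0 = 0 := by simp [cross]

lemma cross_sub (e a b : ℂ) : cross e (a - b) = cross e a - cross e b := by
  simp only [cross, Complex.sub_re, Complex.sub_im]; ring

lemma sum_cross {ι : Type} (s : Finset ι) (f : ι → ℂ) (y : ℂ) :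
    ∑ i ∈ s, cross (f i) y = cross (∑ i ∈ s, f i) y := by
  simp only [cross, Complex.re_sum, Complex.im_sum, Finset.sum_sub_distrib, Finset.sum_mul]

lemma sum_edge {m : ℕ} (z : Fin (m + 3) → ℂ) : ∑ i, edge z i = 0 := by
  unfold edge
  rw [Finset.sum_sub_distrib, sub_eq_zero]
  exact Equiv.sum_comp (Equiv.addRight (1 : Fin (m + 3))) z

lemma fin1 (m : ℕ) (i : Fin (m + 3)) : i + 1 + 1 ≠ i := by
  intro h
  have h2 : (1 + 1 : Fin (m + 3)) = 0 := by
    rw [add_assoc] at h
    exact add_eq_left.mp h
  have := congrArg Fin.val h2
  simp only [Fin.val_add, Fin.val_one, Fin.val_zero] at this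
  rw [Nat.mod_eq_of_lt (by omega)] at this
  omega

lemma fin2 (m : ℕ) (i : Fin (m + 3)) : i + 1 + 1 ≠ i + 1 := by
  intro h
  have h2 : (1 : Fin (m + 3)) = 0 := add_eq_left.mp h
  have := congrArg Fin.val h2
  simp at this

end Cpt

open Cpt in
theorem Compact_ok : TaskCompact := by
  intro m z hz
  have hmem : ∀ j, z j ∈ table z := by
    intro j i
    by_cases h1 : j = i
    · rw [h1, sub_self, cross_zero]
    · by_cases h2 : j = i + 1
      · rw [h2]
        show 0 ≤ cross (edge z i) (edge z i)
        rw [cross_self]
      · exact (hz i j h1 h2).le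
  have hD : ∀ i, 0 < cross (edge z i) (z (i + 1 + 1) - z i) :=
    fun i => hz i (i + 1 + 1) (fin1 m i) (fin2 m i)
  refine ⟨?_, hmem, ?_⟩
  · apply Metric.isCompact_of_isClosed_isBounded
    · have : table z = ⋂ i, {y | 0 ≤ cross (edge z i) (y - z i)} := by
        ext y; simp [table]
      rw [this]
      refine isClosed_iInter fun i => isClosed_le continuous_const ?_
      unfold cross
      fun_prop
    · set C : ℝ := -∑ i, cross (edge z i) (z i) with hC
      have hsum : ∀ y, ∑ i, cross (edge z i) (y - z i) = C := by
        intro y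
        simp only [cross_sub, Finset.sum_sub_distrib]
        rw [sum_cross, sum_edge, hC]
        simp [cross]
      have hle : ∀ y ∈ table z, ∀ i, cross (edge z i) (y - z i) ≤ C := by
        intro y hy i
        rw [← hsum y]
        exact Finset.single_le_sum (f := fun i => cross (edge z i) (y - z i))
          (fun j _ => hy j) (Finset.mem_univ i)
      set e0 := edge z 0 with he0
      set e1 := edge z (0 + 1) with he1
      set D : ℝ := cross e0 e1 with hDdef
      have hDpos : 0 < D := by
        have h := hD 0
        have h2 : z (0 + 1 + 1) - z 0 = edge z (0 + 1) + edge z 0 := by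
          unfold edge; ring
        rw [h2] at h
        have h3 : cross (edge z 0) (edge z (0 + 1) + edge z 0) = D := by
          simp only [hDdef, he0, he1, cross, Complex.add_re, Complex.add_im]; ring
        rwa [h3] at h
      have hbd : ∀ y ∈ table z, ‖y‖ ≤
          ((C + |cross e0 (z 0)|) * ‖e1‖ + (C + |cross e1 (z (0 + 1))|) * ‖e0‖) / D := by
        intro y hy
        rw [le_div_iff₀ hDpos]
        have h1 : (cross e0 y : ℂ) * e1 - (cross e1 y : ℂ) * e0 = y * (D : ℂ) := by
          apply Complex.ext
          · simp only [hDdef, cross, Complex.sub_re, Complex.mul_re, Complex.ofReal_re,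
              Complex.ofReal_im]
            ring
          · simp only [hDdef, cross, Complex.sub_im, Complex.mul_im, Complex.ofReal_re,
              Complex.ofReal_im]
            ring
        have h2 : ‖y‖ * D = ‖(cross e0 y : ℂ) * e1 - (cross e1 y : ℂ) * e0‖ := by
          rw [h1, norm_mul, Complex.norm_real, Real.norm_of_nonneg hDpos.le]
        have h3 : |cross e0 y| ≤ C + |cross e0 (z 0)| := by
          have a1 := hy 0
          have a2 := hle y hy 0
          rw [cross_sub] at a1 a2
          rw [abs_le]
          have a3 := neg_abs_le (cross e0 (z 0))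
          have a4 := le_abs_self (cross e0 (z 0))
          have a5 : 0 ≤ C := (hy 0).trans (hle y hy 0)
          constructor <;> linarith
        have h4 : |cross e1 y| ≤ C + |cross e1 (z (0 + 1))| := by
          have a1 := hy (0 + 1)
          have a2 := hle y hy (0 + 1)
          rw [cross_sub] at a1 a2
          rw [abs_le]
          have a3 := neg_abs_le (cross e1 (z (0 + 1)))
          have a4 := le_abs_self (cross e1 (z (0 + 1)))
          have a5 : 0 ≤ C := (hy 0).trans (hle y hy 0)
          constructor <;> linarith
        rw [h2]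
        calc ‖(cross e0 y : ℂ) * e1 - (cross e1 y : ℂ) * e0‖
            ≤ ‖(cross e0 y : ℂ) * e1‖ + ‖(cross e1 y : ℂ) * e0‖ := norm_sub_le _ _
          _ = |cross e0 y| * ‖e1‖ + |cross e1 y| * ‖e0‖ := by
            rw [norm_mul, norm_mul, Complex.norm_real, Complex.norm_real, Real.norm_eq_abs,
              Real.norm_eq_abs]
          _ ≤ _ := by gcongr
      refine (Metric.isBounded_closedBall (x := (0 : ℂ))
        (r := ((C + |cross e0 (z 0)|) * ‖e1‖ + (C + |cross e1 (z (0 + 1))|) * ‖e0‖) / D)).subset ?_
      intro y hy
      rw [Metric.mem_closedBall, dist_zero_right]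
      exact hbd y hy
  · intro i h
    have h1 := hD i
    rw [h] at h1
    simp [cross] at h1

end Pool.Agent.H199BIL
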