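import Pool.Agent.H199BIL.Stmts

set_option autoImplicit false

namespace Pool.Agent.H199BIL

open Complex ComplexConjugate MeasureTheory

theorem corner_two_ne {m : ℕ} : ((1 : Fin (m + 3)) + 1) ≠ 0 := by
  intro h
  have h1 := congrArg Fin.val h
  rw [Fin.val_add, Fin.val_one', Fin.val_zero] at h1
  have h2 : 1 % (m + 3) = 1 := Nat.mod_eq_of_lt (by omega)
  rw [h2, Nat.mod_eq_of_lt (by omega)] at h1
  omega

theorem corner_one_ne {m : ℕ} : (1 : Fin (m + 3)) ≠ 0 := by
  intro h
  have h1 := congrArg Fin.val h
  rw [Fin.val_one', Fin.val_zero] at h1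
  have h2 : 1 % (m + 3) = 1 := Nat.mod_eq_of_lt (by omega)
  omega

theorem corner_parallel {e y : ℂ} (he : e ≠ 0) (h : cross e y = 0) : ∃ s : ℝ, y = s * e := by
  have hn : 0 < e.re * e.re + e.im * e.im := by
    have := Complex.normSq_pos.2 he
    rwa [Complex.normSq_apply] at this
  refine ⟨(e.re * y.re + e.im * y.im) / (e.re * e.re + e.im * e.im), ?_⟩
  unfold cross at h
  apply Complex.ext
  · simp only [Complex.mul_re, Complex.ofReal_re, Complex.ofReal_im, zero_mul, sub_zero]
    rw [div_mul_eq_mul_div, eq_div_iff hn.ne']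
    linear_combination (-e.im) * h
  · simp only [Complex.mul_im, Complex.ofReal_re, Complex.ofReal_im, zero_mul, add_zero]
    rw [div_mul_eq_mul_div, eq_div_iff hn.ne']
    linear_combination e.re * h

theorem task_corner : TaskCorner := by
  intro m z hz x hx i j hij hi hj
  have h11 : i + 1 + 1 ≠ i := by
    intro h
    rw [add_assoc] at h
    exact corner_two_ne (left_eq_add.1 h.symm)
  have h1 : ∀ a : Fin (m + 3), a + 1 ≠ a := by
    intro a h
    exact corner_one_ne (left_eq_add.1 h.symm)
  have hc1 := hz i (i + 1 + 1) h11 (h1 (i + 1))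
  have he : edge z i ≠ 0 := by
    intro h
    rw [h] at hc1
    simp [cross] at hc1
  obtain ⟨s, hs⟩ := corner_parallel he hi
  -- the next side
  have hs1 : s ≤ 1 := by
    have h2 := hx (i + 1)
    have h3 : x - z (i + 1) = ((s - 1 : ℝ) : ℂ) * edge z i := by
      have : x = z i + s * edge z i := by rw [← hs]; ring
      rw [this]
      unfold edge
      push_cast
      ring
    have h4 : edge z (i + 1) = (z (i + 1 + 1) - z i) - edge z i := by
      unfold edge
      ring
    rw [h3, h4] at h2
    have h5 : cross (z (i + 1 + 1) - z i - edge z i) (((s - 1 : ℝ) : ℂ) * edge z i) =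
        (1 - s) * cross (edge z i) (z (i + 1 + 1) - z i) := by
      simp only [cross, Complex.mul_re, Complex.mul_im, Complex.ofReal_re, Complex.ofReal_im,
        Complex.sub_re, Complex.sub_im]
      ring
    rw [h5] at h2
    by_contra hcon
    push Not at hcon
    nlinarith
  have hs0 : 0 ≤ s := by
    have h2 := hx (i - 1)
    have hii : i - 1 + 1 = i := sub_add_cancel i 1
    have hc2 := hz (i - 1) (i + 1) (by
      intro h
      apply h11
      rw [h, hii]) (by
      rw [hii]
      exact h1 i)
    have h3 : x - z (i - 1) = edge z (i - 1) + s * edge z i := by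
      have : x = z i + s * edge z i := by rw [← hs]; ring
      rw [this]
      unfold edge
      rw [hii]
      ring
    have h4 : z (i + 1) - z (i - 1) = edge z (i - 1) + edge z i := by
      unfold edge
      rw [hii]
      ring
    rw [h3] at h2
    rw [h4] at hc2
    have h5 : cross (edge z (i - 1)) (edge z (i - 1) + s * edge z i) =
        s * cross (edge z (i - 1)) (edge z (i - 1) + edge z i) := by
      simp only [cross, Complex.mul_re, Complex.mul_im, Complex.ofReal_re, Complex.ofReal_im,
        Complex.add_re, Complex.add_im]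
      ring
    rw [h5] at h2
    by_contra hcon
    push Not at hcon
    nlinarith
  have hxs : x = z i + s * edge z i := by rw [← hs]; ring
  rcases eq_or_lt_of_le hs0 with h0 | h0
  · refine ⟨i, ?_⟩
    rw [hxs, ← h0]
    simp
  rcases eq_or_lt_of_le hs1 with h0' | h0'
  · refine ⟨i + 1, ?_⟩
    rw [hxs, h0']
    unfold edge
    push_cast
    ring
  exfalso
  have hg : ∀ k, 0 ≤ cross (edge z j) (z k - z j) ∧
      (cross (edge z j) (z k - z j) = 0 → k = j ∨ k = j + 1) := by
    intro k
    by_cases hk : k = j
    · subst hk
      refine ⟨?_, fun _ => Or.inl rfl⟩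
      simp [cross]
    · by_cases hk' : k = j + 1
      · refine ⟨?_, fun _ => Or.inr hk'⟩
        rw [hk']
        unfold cross edge
        apply le_of_eq
        ring
      · have := hz j k hk hk'
        exact ⟨this.le, fun h => absurd h this.ne'⟩
  have hsum : cross (edge z j) (x - z j) =
      (1 - s) * cross (edge z j) (z i - z j) + s * cross (edge z j) (z (i + 1) - z j) := by
    rw [hxs]
    simp only [cross, edge, Complex.mul_re, Complex.mul_im, Complex.ofReal_re, Complex.ofReal_im,
      Complex.add_re, Complex.add_im, Complex.sub_re, Complex.sub_im]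
    ring
  rw [hj] at hsum
  have ha := (hg i).1
  have hb := (hg (i + 1)).1
  have e1 : cross (edge z j) (z i - z j) = 0 := by
    nlinarith [mul_nonneg h0.le hb, mul_nonneg (sub_nonneg.2 hs1) ha]
  have e2 : cross (edge z j) (z (i + 1) - z j) = 0 := by
    nlinarith [mul_nonneg h0.le hb, mul_nonneg (sub_nonneg.2 hs1) ha]
  rcases (hg i).2 e1 with h | h
  · exact hij h
  · rcases (hg (i + 1)).2 e2 with h' | h'
    · have : i + 1 + 1 = i := by rw [h', ← h]
      exact h11 this
    · exact hij (add_right_cancel h')

end Pool.Agent.H199BIL
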