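import Pool.Agent.H199BIL.Stmts

set_option autoImplicit false

namespace Pool.Agent.H199BIL

open Complex ComplexConjugate MeasureTheory

namespace GapAux

theorem continuous_cross (e z0 : ℂ) : Continuous fun x : ℂ => cross e (x - z0) := by
  unfold cross
  fun_prop

theorem gap_pair {m : ℕ} (z : Fin (m + 3) → ℂ) (hc : IsCompact (table z))
    (hcor : ∀ x ∈ table z, ∀ i j, i ≠ j →
      cross (edge z i) (x - z i) = 0 → cross (edge z j) (x - z j) = 0 → ∃ k, x = z k)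
    (f : ℂ × ℂ → ℝ) (hf : ContinuousOn f (table z ×ˢ Metric.sphere (0 : ℂ) 1))
    (a c : ℝ) (hac : a ≠ c) (hv : ∀ k, ∀ w : ℂ, ‖w‖ = 1 → f (z k, w) = c)
    (i j : Fin (m + 3)) (hij : i ≠ j) :
    ∃ d : ℝ, 0 < d ∧ ∀ x ∈ table z, ∀ y ∈ table z, ∀ w : ℂ, ‖w‖ = 1 → f (x, w) = a →
      cross (edge z i) (x - z i) = 0 → cross (edge z j) (y - z j) = 0 → d ≤ ‖y - x‖ := by
  have hs : IsCompact (table z ×ˢ Metric.sphere (0 : ℂ) 1) := hc.prod (isCompact_sphere _ _)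
  have hA : IsClosed ((table z ×ˢ Metric.sphere (0 : ℂ) 1) ∩ f ⁻¹' {a}) :=
    hf.preimage_isClosed_of_isClosed hs.isClosed isClosed_singleton
  have hB : IsClosed {p : ℂ × ℂ | cross (edge z i) (p.1 - z i) = 0} :=
    isClosed_eq ((continuous_cross (edge z i) (z i)).comp continuous_fst) continuous_const
  have hK1 : IsCompact (((table z ×ˢ Metric.sphere (0 : ℂ) 1) ∩ f ⁻¹' {a}) ∩
      {p : ℂ × ℂ | cross (edge z i) (p.1 - z i) = 0}) :=
    (hs.of_isClosed_subset hA Set.inter_subset_left).inter_right hB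
  have hK2 : IsCompact (table z ∩ {y : ℂ | cross (edge z j) (y - z j) = 0}) :=
    hc.inter_right (isClosed_eq (continuous_cross (edge z j) (z j)) continuous_const)
  have hK := hK1.prod hK2
  set K := (((table z ×ˢ Metric.sphere (0 : ℂ) 1) ∩ f ⁻¹' {a}) ∩
      {p : ℂ × ℂ | cross (edge z i) (p.1 - z i) = 0}) ×ˢ
      (table z ∩ {y : ℂ | cross (edge z j) (y - z j) = 0}) with hKdef
  have hmem : ∀ x ∈ table z, ∀ y ∈ table z, ∀ w : ℂ, ‖w‖ = 1 → f (x, w) = a →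
      cross (edge z i) (x - z i) = 0 → cross (edge z j) (y - z j) = 0 → ((x, w), y) ∈ K := by
    intro x hx y hy w hw hfa h1 h2
    exact ⟨⟨⟨⟨hx, by simpa using hw⟩, hfa⟩, h1⟩, ⟨hy, h2⟩⟩
  rcases K.eq_empty_or_nonempty with hemp | hne
  · refine ⟨1, one_pos, fun x hx y hy w hw hfa h1 h2 => ?_⟩
    have := hmem x hx y hy w hw hfa h1 h2
    rw [hemp] at this
    exact this.elim
  · obtain ⟨p, hp, hmin⟩ := hK.exists_isMinOn hne
      (f := fun p : (ℂ × ℂ) × ℂ => ‖p.2 - p.1.1‖) (by fun_prop)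
    refine ⟨‖p.2 - p.1.1‖, ?_, fun x hx y hy w hw hfa h1 h2 => ?_⟩
    · obtain ⟨⟨⟨⟨hx, hw⟩, hfa⟩, h1⟩, ⟨hy, h2⟩⟩ := hp
      rw [norm_pos_iff]
      intro h0
      have hxy : p.2 = p.1.1 := sub_eq_zero.1 h0
      have h2' : cross (edge z j) (p.2 - z j) = 0 := h2
      rw [hxy] at h2'
      obtain ⟨k, hk⟩ := hcor p.1.1 hx i j hij h1 h2'
      have hfc := hv k p.1.2 (by simpa using hw)
      rw [← hk] at hfc
      have hfa' : f p.1 = a := hfa
      exact hac (hfa'.symm.trans hfc)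
    · exact hmin (hmem x hx y hy w hw hfa h1 h2)

end GapAux

open GapAux in
theorem taskGap : TaskGap := by
  intro m z hc hcor f hf a c hac hv
  have h : ∀ p : Fin (m + 3) × Fin (m + 3), ∃ d : ℝ, 0 < d ∧ (p.1 ≠ p.2 → ∀ x ∈ table z,
      ∀ y ∈ table z, ∀ w : ℂ, ‖w‖ = 1 → f (x, w) = a →
      cross (edge z p.1) (x - z p.1) = 0 → cross (edge z p.2) (y - z p.2) = 0 → d ≤ ‖y - x‖) := by
    intro p
    by_cases hp : p.1 = p.2
    · exact ⟨1, one_pos, fun h => (h hp).elim⟩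
    · obtain ⟨d, hd, hd'⟩ := gap_pair z hc hcor f hf a c hac hv p.1 p.2 hp
      exact ⟨d, hd, fun _ => hd'⟩
  choose d hd hd' using h
  obtain ⟨q, -, hq⟩ := Finset.exists_min_image Finset.univ d ⟨(0, 0), Finset.mem_univ _⟩
  refine ⟨d q, hd q, fun x hx y hy w hw hfa i j hij h1 h2 => ?_⟩
  exact (hq (i, j) (Finset.mem_univ _)).trans (hd' (i, j) hij x hx y hy w hw hfa h1 h2)

end Pool.Agent.H199BIL
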