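import Pool.Agent.H199BIL.Stmts

set_option autoImplicit false

namespace Pool.Agent.H199BIL

open Complex ComplexConjugate MeasureTheory

theorem cross_add (a b c : ℂ) : cross a (b + c) = cross a b + cross a c := by
  simp only [cross, add_re, add_im]; ring

theorem cross_sub (a b c : ℂ) : cross a (b - c) = cross a b - cross a c := by
  simp only [cross, sub_re, sub_im]; ring

theorem cross_smul (a b : ℂ) (r : ℝ) : cross a (r * b) = r * cross a b := by
  simp only [cross, mul_re, mul_im, ofReal_re, ofReal_im]; ring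

theorem reflect_add (e a b : ℂ) : reflect e (a + b) = reflect e a + reflect e b := by
  simp only [reflect, map_add]; ring

theorem reflect_sub (e a b : ℂ) : reflect e (a - b) = reflect e a - reflect e b := by
  simp only [reflect, map_sub]; ring

theorem norm_reflect (e w : ℂ) (he : e ≠ 0) : ‖reflect e w‖ = ‖w‖ := by
  have h : ‖e‖ ≠ 0 := norm_ne_zero_iff.mpr he
  simp only [reflect, norm_mul, norm_div, RCLike.norm_conj]
  rw [div_self h, one_mul]

/-- the mirror reflection as a linear isometry -/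
noncomputable def reflL (e : ℂ) (he : e ≠ 0) : ℂ →ₗᵢ[ℝ] ℂ where
  toFun := reflect e
  map_add' := reflect_add e
  map_smul' := by
    intro r w
    simp only [reflect, real_smul, map_mul, conj_ofReal, RingHom.id_apply]
    ring
  norm_map' := fun w => norm_reflect e w he

theorem cross_reflect (e w : ℂ) (he : e ≠ 0) : cross e (reflect e w) = - cross e w := by
  have hc : conj e ≠ 0 := by simpa using he
  have h1 : ∀ u : ℂ, cross e u = (conj e * u).im := by
    intro u; simp only [cross, mul_im, conj_re, conj_im]; ring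
  rw [h1, h1]
  have h2 : conj e * reflect e w = conj (conj e * w) := by
    simp only [reflect, map_mul, conj_conj]
    field_simp
  rw [h2, conj_im]

theorem reflect_of_cross (e u : ℂ) (he : e ≠ 0) (hu : cross e u = 0) : reflect e u = u := by
  have hc : conj e ≠ 0 := by simpa using he
  have h1 : (conj e * u).im = 0 := by
    have : cross e u = (conj e * u).im := by
      simp only [cross, mul_im, conj_re, conj_im]; ring
    rw [← this, hu]
  have h2 : conj (conj e * u) = conj e * u := conj_eq_iff_im.mpr h1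
  have h3 : e * conj u = conj e * u := by
    rw [← h2]; simp
  rw [reflect, div_mul_eq_mul_div, h3]
  field_simp

theorem norm_expI (φ : ℝ) : ‖exp (φ * I)‖ = 1 := norm_exp_ofReal_mul_I φ

section
variable {m : ℕ} {z : Fin (m + 3) → ℂ} {f : ℂ × ℂ → ℝ} {c : ℝ} {x : ℂ} {α β : ℝ}

/-- one more reflection of the beam -/
theorem advance (hStep : TaskStep) (hcpt : IsCompact (table z)) (hv : ∀ i, z i ∈ table z)
    (he : ∀ i, edge z i ≠ 0)
    (hcor : ∀ x ∈ table z, ∀ i j, i ≠ j →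
      cross (edge z i) (x - z i) = 0 → cross (edge z j) (x - z j) = 0 → ∃ k, x = z k)
    (hinv : BilliardInvariant z f) (hc : ∀ k, ∀ w : ℂ, ‖w‖ = 1 → f (z k, w) = c)
    (hab : α ≤ β) (hF : ∀ φ ∈ Set.Icc α β, f (x, exp (φ * I)) ≠ c)
    (L : ℂ →ₗᵢ[ℝ] ℂ) (b : ℂ) (τ : ℝ → ℝ)
    (h1 : ∀ φ ∈ Set.Icc α β, L (x + τ φ * exp (φ * I)) + b ∈ table z)
    (h2 : ∀ φ ∈ Set.Icc α β,
      f (L (x + τ φ * exp (φ * I)) + b, L (exp (φ * I))) = f (x, exp (φ * I))) :
    ∃ (i : Fin (m + 3)) (L' : ℂ →ₗᵢ[ℝ] ℂ) (b' : ℂ) (τ' : ℝ → ℝ), ∀ φ ∈ Set.Icc α β,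
      τ φ ≤ τ' φ ∧ cross (edge z i) (L (exp (φ * I))) < 0 ∧
      L (x + τ' φ * exp (φ * I)) + b ∈ table z ∧
      cross (edge z i) (L (x + τ' φ * exp (φ * I)) + b - z i) = 0 ∧
      L' (x + τ' φ * exp (φ * I)) + b' = L (x + τ' φ * exp (φ * I)) + b ∧
      f (L' (x + τ' φ * exp (φ * I)) + b', L' (exp (φ * I))) = f (x, exp (φ * I)) ∧
      0 < cross (edge z i) (L' (exp (φ * I))) := by
  -- the point after time `r` in terms of the point after time `τ`
  have hray : ∀ φ r : ℝ, L (x + r * exp (φ * I)) + b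
      = (L (x + τ φ * exp (φ * I)) + b) + ((r - τ φ : ℝ) : ℂ) * L (exp (φ * I)) := by
    intro φ r
    have h : ∀ s : ℝ, L ((s : ℂ) * exp (φ * I)) = (s : ℂ) * L (exp (φ * I)) := by
      intro s
      have := L.map_smul s (exp (φ * I))
      rwa [real_smul, real_smul] at this
    rw [L.map_add, L.map_add, h, h]
    push_cast
    ring
  obtain ⟨i, τ', hi⟩ := hStep m z hcpt hcor L b x α β τ hab h1 (by
    intro φ hφ r hr k hk
    apply hF φ hφ
    rw [← h2 φ hφ, ← hc k (L (exp (φ * I))) (by rw [L.norm_map, norm_expI])]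
    have h3 := hray φ r
    rw [hk] at h3
    have h4 := hinv.flow _ (h1 φ hφ) (L (exp (φ * I))) (by rw [L.norm_map, norm_expI])
      (r - τ φ) (by linarith) (by rw [← h3]; exact hv k)
    rw [← h3] at h4
    exact h4.symm)
  refine ⟨i, (reflL (edge z i) (he i)).comp L, z i + reflect (edge z i) (b - z i), τ', ?_⟩
  intro φ hφ
  obtain ⟨g1, g2, g3, g4⟩ := hi φ hφ
  have hL' : ∀ w, ((reflL (edge z i) (he i)).comp L) w = reflect (edge z i) (L w) := fun w => rfl
  have heq : ((reflL (edge z i) (he i)).comp L) (x + τ' φ * exp (φ * I))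
      + (z i + reflect (edge z i) (b - z i)) = L (x + τ' φ * exp (φ * I)) + b := by
    rw [hL']
    have h5 := reflect_of_cross _ _ (he i) g4
    have h6 : reflect (edge z i) (L (x + τ' φ * exp (φ * I)))
        + (z i + reflect (edge z i) (b - z i))
        = z i + reflect (edge z i) (L (x + τ' φ * exp (φ * I)) + b - z i) := by
      rw [show L (x + τ' φ * exp (φ * I)) + b - z i
        = L (x + τ' φ * exp (φ * I)) + (b - z i) by ring, reflect_add]
      ring
    rw [h6, h5]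
    ring
  refine ⟨g1, g2, g3, g4, heq, ?_, ?_⟩
  · rw [heq, hL', hinv.refl i _ g3 g4 _ (by rw [L.norm_map, norm_expI]), ← h2 φ hφ]
    have h3 := hray φ (τ' φ)
    rw [h3] at g3 ⊢
    exact hinv.flow _ (h1 φ hφ) _ (by rw [L.norm_map, norm_expI]) _ (by linarith) g3
  · rw [hL', cross_reflect _ _ (he i)]
    linarith

/-- the value at the vertices is the only value -/
theorem value_eq (hGap : TaskGap) (hStep : TaskStep) (hcpt : IsCompact (table z))
    (hv : ∀ i, z i ∈ table z) (he : ∀ i, edge z i ≠ 0)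
    (hcor : ∀ x ∈ table z, ∀ i j, i ≠ j →
      cross (edge z i) (x - z i) = 0 → cross (edge z j) (x - z j) = 0 → ∃ k, x = z k)
    (hf : ContinuousOn f (table z ×ˢ Metric.sphere (0 : ℂ) 1))
    (hinv : BilliardInvariant z f) (hc : ∀ k, ∀ w : ℂ, ‖w‖ = 1 → f (z k, w) = c)
    (hx : x ∈ table z) (φ₀ : ℝ) : f (x, exp (φ₀ * I)) = c := by
  by_contra hne
  -- continuity in the angle
  have hcont : Continuous (fun φ : ℝ => f (x, exp (φ * I))) := by
    have h1 : Continuous (fun φ : ℝ => ((x, exp (φ * I)) : ℂ × ℂ)) := by fun_prop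
    exact hf.comp_continuous h1 (fun φ => ⟨hx, by simp [norm_expI]⟩)
  have hev : ∀ᶠ φ : ℝ in nhds φ₀, f (x, exp ((φ : ℂ) * I)) ≠ c :=
    hcont.continuousAt.eventually_ne hne
  obtain ⟨ε, hε, hball⟩ := Metric.eventually_nhds_iff.mp hev
  set δ : ℝ := min (ε / 2) 1 with hδdef
  have hδ0 : 0 < δ := lt_min (by linarith) one_pos
  have hδ1 : δ ≤ 1 := min_le_right _ _
  have hδε : δ < ε := lt_of_le_of_lt (min_le_left _ _) (by linarith)
  have hF : ∀ φ ∈ Set.Icc φ₀ (φ₀ + δ), f (x, exp (φ * I)) ≠ c := by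
    intro φ hφ
    apply hball
    rw [Real.dist_eq, abs_of_nonneg (by linarith [hφ.1])]
    linarith [hφ.2]
  have hab : φ₀ ≤ φ₀ + δ := by linarith
  have hα : φ₀ ∈ Set.Icc φ₀ (φ₀ + δ) := ⟨le_rfl, hab⟩
  have hβ : φ₀ + δ ∈ Set.Icc φ₀ (φ₀ + δ) := ⟨hab, le_rfl⟩
  obtain ⟨d, hd, hgap⟩ := hGap m z hcpt hcor f hf (f (x, exp (φ₀ * I))) c hne hc
  -- states of the beam
  have state : ∀ k : ℕ, ∃ (s : Fin (m + 3)) (L : ℂ →ₗᵢ[ℝ] ℂ) (b : ℂ) (τ : ℝ → ℝ),
      (∀ φ ∈ Set.Icc φ₀ (φ₀ + δ), L (x + τ φ * exp (φ * I)) + b ∈ table z) ∧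
      (∀ φ ∈ Set.Icc φ₀ (φ₀ + δ),
        f (L (x + τ φ * exp (φ * I)) + b, L (exp (φ * I))) = f (x, exp (φ * I))) ∧
      (∀ φ ∈ Set.Icc φ₀ (φ₀ + δ), cross (edge z s) (L (x + τ φ * exp (φ * I)) + b - z s) = 0) ∧
      (∀ φ ∈ Set.Icc φ₀ (φ₀ + δ), 0 < cross (edge z s) (L (exp (φ * I)))) ∧
      k * d ≤ τ φ₀ := by
    intro k
    induction k with
    | zero =>
      obtain ⟨i, L', b', τ', h⟩ := advance (α := φ₀) (β := φ₀ + δ) (x := x) hStep hcpt hv he hcor
        hinv hc hab hF LinearIsometry.id 0 (fun _ => 0)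
        (by intro φ hφ; simpa using hx) (by intro φ hφ; simp)
      refine ⟨i, L', b', τ', ?_, ?_, ?_, ?_, ?_⟩
      · intro φ hφ
        obtain ⟨g1, g2, g3, g4, g5, g6, g7⟩ := h φ hφ
        rw [g5]; exact g3
      · intro φ hφ
        exact (h φ hφ).2.2.2.2.2.1
      · intro φ hφ
        obtain ⟨g1, g2, g3, g4, g5, g6, g7⟩ := h φ hφ
        rw [g5]; exact g4
      · intro φ hφ
        exact (h φ hφ).2.2.2.2.2.2
      · simpa using (h φ₀ hα).1
    | succ k ih =>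
      obtain ⟨s, L, b, τ, h1, h2, h3, h4, h5⟩ := ih
      obtain ⟨i, L', b', τ', h⟩ := advance (α := φ₀) (β := φ₀ + δ) (x := x) hStep hcpt hv he hcor
        hinv hc hab hF L b τ h1 h2
      refine ⟨i, L', b', τ', ?_, ?_, ?_, ?_, ?_⟩
      · intro φ hφ
        obtain ⟨g1, g2, g3, g4, g5, g6, g7⟩ := h φ hφ
        rw [g5]; exact g3
      · intro φ hφ
        exact (h φ hφ).2.2.2.2.2.1
      · intro φ hφ
        obtain ⟨g1, g2, g3, g4, g5, g6, g7⟩ := h φ hφ
        rw [g5]; exact g4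
      · intro φ hφ
        exact (h φ hφ).2.2.2.2.2.2
      · obtain ⟨g1, g2, g3, g4, g5, g6, g7⟩ := h φ₀ hα
        have hsi : s ≠ i := by
          rintro rfl
          linarith [h4 φ₀ hα]
        have hg := hgap _ (h1 φ₀ hα) _ g3 (L (exp (φ₀ * I))) (by rw [L.norm_map, norm_expI])
          (h2 φ₀ hα) s i hsi (h3 φ₀ hα) g4
        have hdiff : L (x + τ' φ₀ * exp (φ₀ * I)) + b - (L (x + τ φ₀ * exp (φ₀ * I)) + b)
            = L (((τ' φ₀ - τ φ₀ : ℝ) : ℂ) * exp (φ₀ * I)) := by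
          rw [show L (x + τ' φ₀ * exp (φ₀ * I)) + b - (L (x + τ φ₀ * exp (φ₀ * I)) + b)
            = L (x + τ' φ₀ * exp (φ₀ * I)) - L (x + τ φ₀ * exp (φ₀ * I)) by ring, ← L.map_sub]
          congr 1
          push_cast
          ring
        rw [hdiff, L.norm_map, norm_mul, norm_expI, mul_one, norm_real, Real.norm_eq_abs,
          abs_of_nonneg (by linarith)] at hg
        push_cast
        linarith
  -- bounded distance
  obtain ⟨D, hD⟩ := hcpt.isBounded.exists_norm_le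
  have hsin : 0 < Real.sin δ := Real.sin_pos_of_pos_of_lt_pi hδ0 (by linarith [Real.pi_gt_three])
  have hkey : ∀ k : ℕ, k * (d * Real.sin δ) ≤ 2 * D := by
    intro k
    obtain ⟨s, L, b, τ, h1, h2, h3, h4, h5⟩ := state k
    have hA := hD _ (h1 _ hα)
    have hB := hD _ (h1 _ hβ)
    have hdist : ‖(L (x + τ φ₀ * exp (φ₀ * I)) + b)
        - (L (x + τ (φ₀ + δ) * exp ((φ₀ + δ : ℝ) * I)) + b)‖ ≤ 2 * D := by
      refine (norm_sub_le _ _).trans ?_
      linarith
    have heq : (L (x + τ φ₀ * exp (φ₀ * I)) + b)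
        - (L (x + τ (φ₀ + δ) * exp ((φ₀ + δ : ℝ) * I)) + b)
        = L (τ φ₀ * exp (φ₀ * I) - τ (φ₀ + δ) * exp ((φ₀ + δ : ℝ) * I)) := by
      rw [show (L (x + τ φ₀ * exp (φ₀ * I)) + b)
        - (L (x + τ (φ₀ + δ) * exp ((φ₀ + δ : ℝ) * I)) + b)
        = L (x + τ φ₀ * exp (φ₀ * I)) - L (x + τ (φ₀ + δ) * exp ((φ₀ + δ : ℝ) * I)) by ring,
        ← L.map_sub]
      congr 1
      ring
    rw [heq, L.norm_map] at hdist
    have hrot : ‖(τ φ₀ * exp (φ₀ * I) - τ (φ₀ + δ) * exp ((φ₀ + δ : ℝ) * I) : ℂ)‖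
        = ‖(τ φ₀ * exp (((-δ : ℝ) : ℂ) * I) - τ (φ₀ + δ) : ℂ)‖ := by
      have hmul : (τ φ₀ * exp (φ₀ * I) - τ (φ₀ + δ) * exp ((φ₀ + δ : ℝ) * I) : ℂ)
          = exp ((φ₀ + δ : ℝ) * I) * (τ φ₀ * exp (((-δ : ℝ) : ℂ) * I) - τ (φ₀ + δ)) := by
        have : exp ((φ₀ : ℂ) * I) = exp ((φ₀ + δ : ℝ) * I) * exp (((-δ : ℝ) : ℂ) * I) := by
          rw [← Complex.exp_add]
          congr 1
          push_cast
          ring
        rw [this]
        ring
      rw [hmul, norm_mul, norm_expI, one_mul]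
    have him : |(τ φ₀ * exp (((-δ : ℝ) : ℂ) * I) - τ (φ₀ + δ) : ℂ).im| = |τ φ₀| * Real.sin δ := by
      have : (τ φ₀ * exp (((-δ : ℝ) : ℂ) * I) - τ (φ₀ + δ) : ℂ).im = - (τ φ₀ * Real.sin δ) := by
        rw [sub_im, ofReal_im, sub_zero, im_ofReal_mul, exp_ofReal_mul_I_im, Real.sin_neg]
        ring
      rw [this, abs_neg, abs_mul, abs_of_pos hsin]
    have h6 := Complex.abs_im_le_norm (τ φ₀ * exp (((-δ : ℝ) : ℂ) * I) - τ (φ₀ + δ) : ℂ)
    rw [him, ← hrot] at h6
    have h7 : (k * d) * Real.sin δ ≤ |τ φ₀| * Real.sin δ :=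
      mul_le_mul_of_nonneg_right (h5.trans (le_abs_self _)) hsin.le
    calc k * (d * Real.sin δ) = (k * d) * Real.sin δ := by ring
      _ ≤ _ := h7
      _ ≤ _ := h6
      _ ≤ _ := hdist
  obtain ⟨k, hk⟩ := exists_nat_gt (2 * D / (d * Real.sin δ))
  have hpos : 0 < d * Real.sin δ := mul_pos hd hsin
  rw [div_lt_iff₀ hpos] at hk
  linarith [hkey k]

end

end Pool.Agent.H199BIL
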