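import Pool.Agent.H199BIL.Stmts

set_option autoImplicit false

namespace Pool.Agent.H199BIL

open Complex ComplexConjugate MeasureTheory

theorem step_abstract {ι : Type} [Fintype ι] (C : ι → ℝ) (A : ι → ℝ → ℝ)
    (hA : ∀ i, Continuous (A i)) (α β : ℝ) (hαβ : α ≤ β) (τ : ℝ → ℝ)
    (F1 : ∀ φ ∈ Set.Icc α β, ∀ i, 0 ≤ C i + τ φ * A i φ)
    (F2 : ∀ φ ∈ Set.Icc α β, ∃ i, A i φ < 0)
    (F3 : ∀ φ ∈ Set.Icc α β, ∀ r, τ φ ≤ r → (∀ j, 0 ≤ C j + r * A j φ) → ∀ i j, i ≠ j →
      C i + r * A i φ = 0 → C j + r * A j φ ≠ 0) :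
    ∃ i, ∀ φ ∈ Set.Icc α β, A i φ < 0 ∧ τ φ ≤ -C i / A i φ ∧
      ∀ j, 0 ≤ C j + (-C i / A i φ) * A j φ := by
  classical
  let O : ι → Set ℝ := fun i => {φ | A i φ < 0 ∧ ∀ j, j ≠ i → C j * A i φ - C i * A j φ < 0}
  have hO : ∀ i, IsOpen (O i) := by
    intro i
    have h1 : IsOpen {φ | A i φ < 0} := isOpen_lt (hA i) continuous_const
    have h2 : IsOpen (⋂ j, {φ | j ≠ i → C j * A i φ - C i * A j φ < 0}) := by
      refine isOpen_iInter_of_finite fun j => ?_
      by_cases h : j = i
      · have : {φ | j ≠ i → C j * A i φ - C i * A j φ < 0} = Set.univ := by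
          ext φ; simp [h]
        rw [this]; exact isOpen_univ
      · have : {φ | j ≠ i → C j * A i φ - C i * A j φ < 0} =
            {φ | C j * A i φ - C i * A j φ < 0} := by
          ext φ; simp [h]
        rw [this]
        exact isOpen_lt ((continuous_const.mul (hA i)).sub (continuous_const.mul (hA j)))
          continuous_const
    have h3 : O i = {φ | A i φ < 0} ∩ (⋂ j, {φ | j ≠ i → C j * A i φ - C i * A j φ < 0}) := by
      ext φ; simp [O]
    rw [h3]
    exact h1.inter h2
  have hdisj : ∀ i j, i ≠ j → ∀ φ, φ ∈ O i → φ ∈ O j → False := by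
    intro i j hij φ h1 h2
    have a := h1.2 j hij.symm
    have b := h2.2 i hij
    linarith
  -- every direction has an exit side
  have hcov : ∀ φ ∈ Set.Icc α β, ∃ i, φ ∈ O i := by
    intro φ hφ
    obtain ⟨i₁, hi₁⟩ := F2 φ hφ
    obtain ⟨i, hi, hmin⟩ := Finset.exists_min_image (Finset.univ.filter fun i => A i φ < 0)
      (fun i => -C i / A i φ) ⟨i₁, by simpa using hi₁⟩
    have hi' : A i φ < 0 := by simpa using hi
    have hτ : τ φ ≤ -C i / A i φ := by
      rw [le_div_iff_of_neg hi']
      have := F1 φ hφ i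
      linarith
    have hall : ∀ j, 0 ≤ C j + (-C i / A i φ) * A j φ := by
      intro j
      by_cases hj : A j φ < 0
      · have h1 : -C i / A i φ ≤ -C j / A j φ := hmin j (by simpa using hj)
        rw [le_div_iff_of_neg hj] at h1
        linarith
      · push Not at hj
        have h1 := F1 φ hφ j
        have h2 := mul_le_mul_of_nonneg_right hτ hj
        linarith
    have hzero : C i + (-C i / A i φ) * A i φ = 0 := by
      rw [div_mul_cancel₀ _ hi'.ne]; ring
    refine ⟨i, hi', fun j hj => ?_⟩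
    have h1 := F3 φ hφ _ hτ hall i j hj.symm hzero
    have h2 : 0 < C j + (-C i / A i φ) * A j φ := lt_of_le_of_ne (hall j) (Ne.symm h1)
    have h3 := mul_neg_of_pos_of_neg h2 hi'
    have h4 : (C j + (-C i / A i φ) * A j φ) * A i φ = C j * A i φ - C i * A j φ := by
      rw [add_mul, mul_right_comm, div_mul_cancel₀ _ hi'.ne]; ring
    linarith
  obtain ⟨i, hi⟩ := hcov α ⟨le_rfl, hαβ⟩
  have hsub : Set.Icc α β ⊆ O i := by
    refine IsPreconnected.subset_left_of_subset_union (u := O i)
      (v := ⋃ j ∈ {j | j ≠ i}, O j) (hO i) (isOpen_biUnion fun j _ => hO j) ?_ ?_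
      ⟨α, ⟨le_rfl, hαβ⟩, hi⟩ isPreconnected_Icc
    · rw [Set.disjoint_left]
      intro φ h1 h2
      rw [Set.mem_iUnion₂] at h2
      obtain ⟨j, hj, h2⟩ := h2
      exact hdisj i j (Ne.symm hj) φ h1 h2
    · intro φ hφ
      obtain ⟨j, hj⟩ := hcov φ hφ
      by_cases h : j = i
      · left; rw [← h]; exact hj
      · right; exact Set.mem_iUnion₂.2 ⟨j, h, hj⟩
  refine ⟨i, fun φ hφ => ?_⟩
  have hi' := (hsub hφ).1
  refine ⟨hi', ?_, ?_⟩
  · rw [le_div_iff_of_neg hi']
    have := F1 φ hφ i
    linarith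
  · intro j
    by_cases hj : j = i
    · subst hj
      rw [div_mul_cancel₀ _ hi'.ne]; linarith
    · have h1 := (hsub hφ).2 j hj
      have h4 : (C j + (-C i / A i φ) * A j φ) * A i φ = C j * A i φ - C i * A j φ := by
        rw [add_mul, mul_right_comm, div_mul_cancel₀ _ hi'.ne]; ring
      by_contra hcon
      push Not at hcon
      have := mul_pos_of_neg_of_neg hcon hi'
      linarith

theorem step_ok : TaskStep := by
  intro m z hcomp hcorner L b x α β τ hαβ hT hV
  have hcross : ∀ (i : Fin (m + 3)) (φ r : ℝ),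
      cross (edge z i) (L (x + r * exp (φ * I)) + b - z i) =
        cross (edge z i) (L x + b - z i) + r * cross (edge z i) (L (exp (φ * I))) := by
    intro i φ r
    have h1 : L (x + r * exp (φ * I)) = L x + r * L (exp (φ * I)) := by
      rw [map_add, ← Complex.real_smul, map_smul, Complex.real_smul]
    rw [h1]
    unfold cross
    simp only [Complex.add_re, Complex.add_im, Complex.sub_re, Complex.sub_im, Complex.mul_re,
      Complex.mul_im, Complex.ofReal_re, Complex.ofReal_im]
    ring
  have hcont : ∀ i : Fin (m + 3), Continuous fun φ : ℝ => cross (edge z i) (L (exp (φ * I))) := by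
    intro i
    unfold cross
    have h1 : Continuous fun φ : ℝ => L (exp (φ * I)) := by
      apply L.continuous.comp
      fun_prop
    have h2 := Complex.continuous_re.comp h1
    have h3 := Complex.continuous_im.comp h1
    exact (continuous_const.mul h3).sub (continuous_const.mul h2)
  have hmem : ∀ φ r : ℝ, (∀ i : Fin (m + 3), 0 ≤ cross (edge z i) (L x + b - z i) +
      r * cross (edge z i) (L (exp (φ * I)))) ↔ L (x + r * exp (φ * I)) + b ∈ table z := by
    intro φ r
    constructor
    · intro h i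
      rw [hcross]; exact h i
    · intro h i
      rw [← hcross]; exact h i
  obtain ⟨i, hi⟩ := step_abstract (fun i => cross (edge z i) (L x + b - z i))
    (fun i φ => cross (edge z i) (L (exp (φ * I)))) hcont α β hαβ τ
    (fun φ hφ => (hmem φ (τ φ)).2 (hT φ hφ))
    (fun φ hφ => by
      by_contra hcon
      push Not at hcon
      obtain ⟨M, hM⟩ := hcomp.isBounded.exists_norm_le
      have hin : ∀ t : ℝ, 0 ≤ t → L (x + (τ φ + t : ℝ) * exp (φ * I)) + b ∈ table z := by
        intro t ht
        rw [← hmem]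
        intro i
        have h1 := (hmem φ (τ φ)).2 (hT φ hφ) i
        have h2 := mul_nonneg ht (hcon i)
        have h3 : (τ φ + t) * cross (edge z i) (L (exp (φ * I))) =
          τ φ * cross (edge z i) (L (exp (φ * I))) + t * cross (edge z i) (L (exp (φ * I))) := by
          ring
        rw [h3]
        linarith
      have hnorm : ∀ t : ℝ, 0 ≤ t → |τ φ + t| ≤ M + ‖b‖ + ‖x‖ := by
        intro t ht
        have h1 := hM _ (hin t ht)
        have h2 : ‖L (x + (τ φ + t : ℝ) * exp (φ * I))‖ ≤ M + ‖b‖ := by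
          have : L (x + (τ φ + t : ℝ) * exp (φ * I)) =
            (L (x + (τ φ + t : ℝ) * exp (φ * I)) + b) - b := by ring
          rw [this]
          exact (norm_sub_le _ _).trans (by linarith)
        rw [L.norm_map] at h2
        have h3 : ‖((τ φ + t : ℝ) : ℂ) * exp (φ * I)‖ ≤ M + ‖b‖ + ‖x‖ := by
          have : ((τ φ + t : ℝ) : ℂ) * exp (φ * I) = (x + (τ φ + t : ℝ) * exp (φ * I)) - x := by
            ring
          rw [this]
          exact (norm_sub_le _ _).trans (by linarith)
        rwa [norm_mul, Complex.norm_exp_ofReal_mul_I, mul_one, Complex.norm_real,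
          Real.norm_eq_abs] at h3
      have h4 := hnorm (|τ φ| + |M + ‖b‖ + ‖x‖| + 1) (by positivity)
      have h5 := le_abs_self (τ φ + (|τ φ| + |M + ‖b‖ + ‖x‖| + 1))
      have h6 := neg_abs_le (τ φ)
      have h7 := le_abs_self (M + ‖b‖ + ‖x‖)
      linarith)
    (fun φ hφ r hr hall i j hij hi hj => by
      have h1 := (hmem φ r).1 hall
      have hi' : cross (edge z i) (L (x + r * exp (φ * I)) + b - z i) = 0 := by
        rw [hcross]; exact hi
      have hj' : cross (edge z j) (L (x + r * exp (φ * I)) + b - z j) = 0 := by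
        rw [hcross]; exact hj
      obtain ⟨k, hk⟩ := hcorner _ h1 i j hij hi' hj'
      exact hV φ hφ r hr k hk)
  refine ⟨i, fun φ => -cross (edge z i) (L x + b - z i) / cross (edge z i) (L (exp (φ * I))), ?_⟩
  intro φ hφ
  obtain ⟨h1, h2, h3⟩ := hi φ hφ
  refine ⟨h2, h1, (hmem φ _).1 h3, ?_⟩
  rw [hcross, div_mul_cancel₀ _ (ne_of_lt h1)]
  ring

end Pool.Agent.H199BIL
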