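import Mathlib

set_option autoImplicit false

namespace Pool.Agent.H199BIL

open Complex ComplexConjugate MeasureTheory

/-- the cross product of two plane vectors -/
noncomputable def cross (a b : ℂ) : ℝ := a.re * b.im - a.im * b.re

/-- the `i`-th side vector of the closed polygonal line with vertices `z 0, ..., z (m+2)` -/
noncomputable def edge {m : ℕ} (z : Fin (m + 3) → ℂ) (i : Fin (m + 3)) : ℂ := z (i + 1) - z i

/-- `z` lists the vertices of a (strictly) convex polygon in counterclockwise order -/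
def IsConvexPolygon {m : ℕ} (z : Fin (m + 3) → ℂ) : Prop :=
  ∀ i j : Fin (m + 3), j ≠ i → j ≠ i + 1 → 0 < cross (edge z i) (z j - z i)

/-- the closed polygon -/
def table {m : ℕ} (z : Fin (m + 3) → ℂ) : Set ℂ :=
  {y | ∀ i, 0 ≤ cross (edge z i) (y - z i)}

/-- linear mirror reflection in the line `ℝ e` -/
noncomputable def reflect (e w : ℂ) : ℂ := e / conj e * conj w

/-- every interior angle is an irrational multiple of `π`: the rotation
`w ↦ reflect (edge (i+1)) (reflect (edge i) w)` has infinite order -/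
def IrrationalAngles {m : ℕ} (z : Fin (m + 3) → ℂ) : Prop :=
  ∀ i : Fin (m + 3), ∀ k : ℕ, 0 < k →
    (edge z (i + 1) / conj (edge z (i + 1)) * (conj (edge z i) / edge z i)) ^ k ≠ 1

/-- `f`, a function of (position, unit direction), is constant along the billiard trajectories -/
structure BilliardInvariant {m : ℕ} (z : Fin (m + 3) → ℂ) (f : ℂ × ℂ → ℝ) : Prop where
  flow : ∀ x ∈ table z, ∀ w : ℂ, ‖w‖ = 1 → ∀ t : ℝ, 0 ≤ t → x + t * w ∈ table z →
    f (x + t * w, w) = f (x, w)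
  refl : ∀ i, ∀ x ∈ table z, cross (edge z i) (x - z i) = 0 → ∀ w : ℂ, ‖w‖ = 1 →
    f (x, reflect (edge z i) w) = f (x, w)

/-- Task AE -/
def TaskAE : Prop :=
  ∀ m : ℕ, ∀ᵐ z : Fin (m + 3) → ℂ, IsConvexPolygon z → IrrationalAngles z

/-- Task Compact -/
def TaskCompact : Prop :=
  ∀ (m : ℕ) (z : Fin (m + 3) → ℂ), IsConvexPolygon z →
    IsCompact (table z) ∧ (∀ i, z i ∈ table z) ∧ (∀ i, edge z i ≠ 0)

/-- Task Corner: a point of the polygon on two different sides is a vertex -/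
def TaskCorner : Prop :=
  ∀ (m : ℕ) (z : Fin (m + 3) → ℂ), IsConvexPolygon z → ∀ x ∈ table z, ∀ i j, i ≠ j →
    cross (edge z i) (x - z i) = 0 → cross (edge z j) (x - z j) = 0 → ∃ k, x = z k

/-- Task Vertex: a continuous invariant function has one and the same value at all phase points
over the vertices -/
def TaskVertex : Prop :=
  ∀ (m : ℕ) (z : Fin (m + 3) → ℂ), (∀ i, z i ∈ table z) → (∀ i, edge z i ≠ 0) →
    IrrationalAngles z → ∀ f : ℂ × ℂ → ℝ, ContinuousOn f (table z ×ˢ Metric.sphere (0 : ℂ) 1) → BilliardInvariant z f →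
    ∃ c : ℝ, ∀ k, ∀ w : ℂ, ‖w‖ = 1 → f (z k, w) = c

/-- Task Gap: orbits on a level set which avoids the vertices have flights bounded below -/
def TaskGap : Prop :=
  ∀ (m : ℕ) (z : Fin (m + 3) → ℂ), IsCompact (table z) →
    (∀ x ∈ table z, ∀ i j, i ≠ j →
      cross (edge z i) (x - z i) = 0 → cross (edge z j) (x - z j) = 0 → ∃ k, x = z k) →
    ∀ f : ℂ × ℂ → ℝ, ContinuousOn f (table z ×ˢ Metric.sphere (0 : ℂ) 1) →
    ∀ a c : ℝ, a ≠ c → (∀ k, ∀ w : ℂ, ‖w‖ = 1 → f (z k, w) = c) →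
    ∃ d : ℝ, 0 < d ∧ ∀ x ∈ table z, ∀ y ∈ table z, ∀ w : ℂ, ‖w‖ = 1 → f (x, w) = a →
      ∀ i j, i ≠ j → cross (edge z i) (x - z i) = 0 → cross (edge z j) (y - z j) = 0 →
      d ≤ ‖y - x‖

/-- Task Step: the rays of a beam which avoids the vertices all leave the polygon through the same
side.  `L` (linear isometry) and `b` describe the folding map `X ↦ L X + b`; the beam consists of
the rays `x + r e^{iφ}`, `φ ∈ [α, β]`. -/
def TaskStep : Prop :=
  ∀ (m : ℕ) (z : Fin (m + 3) → ℂ), IsCompact (table z) →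
    (∀ x ∈ table z, ∀ i j, i ≠ j →
      cross (edge z i) (x - z i) = 0 → cross (edge z j) (x - z j) = 0 → ∃ k, x = z k) →
    ∀ (L : ℂ →ₗᵢ[ℝ] ℂ) (b x : ℂ) (α β : ℝ) (τ : ℝ → ℝ), α ≤ β →
    (∀ φ ∈ Set.Icc α β, L (x + τ φ * exp (φ * I)) + b ∈ table z) →
    (∀ φ ∈ Set.Icc α β, ∀ r : ℝ, τ φ ≤ r → ∀ k, L (x + r * exp (φ * I)) + b ≠ z k) →
    ∃ i, ∃ τ' : ℝ → ℝ, ∀ φ ∈ Set.Icc α β, τ φ ≤ τ' φ ∧
      cross (edge z i) (L (exp (φ * I))) < 0 ∧
      L (x + τ' φ * exp (φ * I)) + b ∈ table z ∧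
      cross (edge z i) (L (x + τ' φ * exp (φ * I)) + b - z i) = 0

end Pool.Agent.H199BIL
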