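import Pool.Agent.H199BIL.Stmts

set_option autoImplicit false

/-!
Task Vertex of the project H199-BIL: a continuous function which is constant along the billiard
trajectories has one and the same value at all phase points over the vertices.
-/

namespace Pool.Agent.H199BIL

open Complex ComplexConjugate MeasureTheory Topology Filter

/-- a continuous periodic function which is also invariant under an incommensurable shift is
constant -/
lemma const_of_two_periods (G : ℝ → ℝ) (hG : Continuous G) (s : ℝ)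
    (h1 : ∀ θ, G (θ + 2 * Real.pi) = G θ) (h2 : ∀ θ, G (θ + s) = G θ)
    (hirr : ∀ k : ℕ, 0 < k → ∀ n : ℤ, s * k ≠ n * (2 * Real.pi)) : ∀ θ, G θ = G 0 := by
  let K : AddSubgroup ℝ :=
    { carrier := {a | ∀ θ, G (θ + a) = G θ}
      zero_mem' := fun θ => by rw [add_zero]
      add_mem' := by
        intro a b ha hb θ
        rw [← add_assoc, hb, ha]
      neg_mem' := by
        intro a ha θ
        have := ha (θ + -a)
        rw [neg_add_cancel_right] at this
        exact this.symm }
  have hmem : ∀ a, a ∈ K ↔ ∀ θ, G (θ + a) = G θ := fun a => Iff.rfl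
  have hcl : IsClosed (K : Set ℝ) := by
    have : (K : Set ℝ) = ⋂ θ, {a | G (θ + a) = G θ} := by
      ext a
      simp [hmem]
    rw [this]
    exact isClosed_iInter fun θ =>
      isClosed_eq (hG.comp (continuous_const.add continuous_id)) continuous_const
  rcases AddSubgroup.dense_or_cyclic K with hd | ⟨a, ha⟩
  · intro θ
    have h3 : (K : Set ℝ) = Set.univ := by
      rw [← hcl.closure_eq]
      exact hd.closure_eq
    have h4 : θ ∈ K := by
      have : θ ∈ (K : Set ℝ) := by rw [h3]; exact Set.mem_univ _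
      exact this
    have h5 := (hmem θ).1 h4 0
    rw [zero_add] at h5
    exact h5
  · exfalso
    have h3 : 2 * Real.pi ∈ K := h1
    have h4 : s ∈ K := h2
    rw [ha, AddSubgroup.mem_closure_singleton] at h3 h4
    obtain ⟨n, hn⟩ := h3
    obtain ⟨m, hm⟩ := h4
    rw [zsmul_eq_mul] at hn hm
    have hn0 : n ≠ 0 := by
      rintro rfl
      rw [Int.cast_zero, zero_mul] at hn
      exact Real.two_pi_pos.ne hn
    apply hirr n.natAbs (Int.natAbs_pos.2 hn0) (m * n.sign)
    have h5 : ((n.natAbs : ℕ) : ℝ) = (n : ℝ) * (n.sign : ℝ) := by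
      have h6 : ((n.natAbs : ℕ) : ℤ) = n * n.sign := (Int.mul_sign_self n).symm
      have h7 : (((n.natAbs : ℕ) : ℤ) : ℝ) = ((n * n.sign : ℤ) : ℝ) := by rw [h6]
      rw [Int.cast_natCast, Int.cast_mul] at h7
      exact h7
    rw [h5, ← hm, ← hn]
    push_cast
    ring

lemma reflect_norm {e w : ℂ} (he : e ≠ 0) (hw : ‖w‖ = 1) : ‖reflect e w‖ = 1 := by
  unfold reflect
  rw [norm_mul, norm_div, Complex.norm_conj, Complex.norm_conj, hw, mul_one,
    div_self (norm_ne_zero_iff.2 he)]

lemma reflect_reflect (e e' w : ℂ) : reflect e' (reflect e w) =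
    (e' / conj e' * (conj e / e)) * w := by
  unfold reflect
  rw [map_mul, map_div₀, Complex.conj_conj, Complex.conj_conj]
  ring

theorem taskVertex_ok : TaskVertex := by
  intro m z hz he hirr f hf hinv
  -- the value over one vertex
  have hone : ∀ k : Fin (m + 3), ∃ c : ℝ, ∀ w : ℂ, ‖w‖ = 1 → f (z k, w) = c := by
    intro k
    obtain ⟨i, rfl⟩ : ∃ i : Fin (m + 3), k = i + 1 := ⟨k - 1, (sub_add_cancel k 1).symm⟩
    have h1 : ∀ w : ℂ, ‖w‖ = 1 → f (z (i + 1), reflect (edge z i) w) = f (z (i + 1), w) := by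
      intro w hw
      refine hinv.refl i _ (hz _) ?_ w hw
      unfold edge cross
      ring
    have h2 : ∀ w : ℂ, ‖w‖ = 1 → f (z (i + 1), reflect (edge z (i + 1)) w) =
        f (z (i + 1), w) := by
      intro w hw
      refine hinv.refl (i + 1) _ (hz _) ?_ w hw
      rw [sub_self]
      simp [cross]
    set ρ : ℂ := edge z (i + 1) / conj (edge z (i + 1)) * (conj (edge z i) / edge z i) with hρ
    have hρ1 : ‖ρ‖ = 1 := by
      rw [hρ, norm_mul, norm_div, norm_div, Complex.norm_conj, Complex.norm_conj,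
        div_self (norm_ne_zero_iff.2 (he _)), div_self (norm_ne_zero_iff.2 (he _)), mul_one]
    have h3 : ∀ w : ℂ, ‖w‖ = 1 → f (z (i + 1), ρ * w) = f (z (i + 1), w) := by
      intro w hw
      rw [hρ, ← reflect_reflect, h2 _ (reflect_norm (he i) hw), h1 w hw]
    have hρe : ρ = exp (ρ.arg * I) := by
      have := Complex.norm_mul_exp_arg_mul_I ρ
      rw [hρ1] at this
      simpa using this.symm
    let G : ℝ → ℝ := fun θ => f (z (i + 1), exp (θ * I))
    have hGc : Continuous G := by
      have h4 : Continuous fun θ : ℝ => ((z (i + 1), exp (θ * I)) : ℂ × ℂ) := by fun_prop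
      refine hf.comp_continuous h4 fun θ => ⟨hz _, ?_⟩
      rw [mem_sphere_zero_iff_norm]
      exact Complex.norm_exp_ofReal_mul_I θ
    have hG1 : ∀ θ, G (θ + 2 * Real.pi) = G θ := by
      intro θ
      show f (z (i + 1), exp (((θ + 2 * Real.pi : ℝ) : ℂ) * I)) = f (z (i + 1), exp (θ * I))
      have : exp (((θ + 2 * Real.pi : ℝ) : ℂ) * I) = exp (θ * I) := by
        push_cast
        rw [add_mul, Complex.exp_add, Complex.exp_two_pi_mul_I, mul_one]
      rw [this]
    have hG2 : ∀ θ, G (θ + ρ.arg) = G θ := by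
      intro θ
      show f (z (i + 1), exp (((θ + ρ.arg : ℝ) : ℂ) * I)) = f (z (i + 1), exp (θ * I))
      have : exp (((θ + ρ.arg : ℝ) : ℂ) * I) = ρ * exp (θ * I) := by
        push_cast
        rw [add_mul, Complex.exp_add, ← hρe, mul_comm]
      rw [this]
      exact h3 _ (Complex.norm_exp_ofReal_mul_I θ)
    have hG3 := const_of_two_periods G hGc ρ.arg hG1 hG2 (by
      intro k hk n hn
      apply hirr i k hk
      rw [← hρ, hρe, ← Complex.exp_nat_mul]
      have h4 : (k : ℂ) * (ρ.arg * I) = n * (2 * Real.pi * I) := by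
        have h5 : ((ρ.arg * k : ℝ) : ℂ) = ((n * (2 * Real.pi) : ℝ) : ℂ) := by rw [hn]
        push_cast at h5
        linear_combination I * h5
      rw [h4]
      exact Complex.exp_int_mul_two_pi_mul_I n)
    refine ⟨G 0, fun w hw => ?_⟩
    have h4 : w = exp (w.arg * I) := by
      have := Complex.norm_mul_exp_arg_mul_I w
      rw [hw] at this
      simpa using this.symm
    rw [← hG3 w.arg]
    show f (z (i + 1), w) = f (z (i + 1), exp (w.arg * I))
    rw [← h4]
  choose c hc using hone
  have hstep : ∀ i : Fin (m + 3), c (i + 1) = c i := by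
    intro i
    have h0 : ‖edge z i‖ ≠ 0 := norm_ne_zero_iff.2 (he i)
    have h0' : ((‖edge z i‖ : ℝ) : ℂ) ≠ 0 := by exact_mod_cast h0
    have hw : ‖edge z i / (‖edge z i‖ : ℝ)‖ = 1 := by
      rw [norm_div, Complex.norm_real, norm_norm, div_self h0]
    have h1 : z i + ((‖edge z i‖ : ℝ) : ℂ) * (edge z i / (‖edge z i‖ : ℝ)) = z (i + 1) := by
      rw [mul_div_cancel₀ _ h0']
      unfold edge
      ring
    have h2 := hinv.flow (z i) (hz i) _ hw ‖edge z i‖ (norm_nonneg _) (by
      rw [h1]
      exact hz _)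
    rw [h1, hc _ _ hw, hc _ _ hw] at h2
    exact h2
  refine ⟨c 0, fun k w hw => ?_⟩
  rw [hc k w hw]
  induction k using Fin.induction with
  | zero => rfl
  | succ i ih =>
    rw [← Fin.coeSucc_eq_succ, hstep, ih]

end Pool.Agent.H199BIL
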