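import Pool.Agent.H199BIL.Main

set_option autoImplicit false

namespace Pool.Agent.H199BIL

open Complex ComplexConjugate MeasureTheory Filter Topology

/-- the open polygon -/
def openTable {m : ℕ} (z : Fin (m + 3) → ℂ) : Set ℂ :=
  {y | ∀ i, 0 < cross (edge z i) (y - z i)}

/-- `f`, a function of (position, unit direction), is constant along the free flight inside the
open polygon and takes the same value at the incoming and the outgoing direction at every boundary
point which is not a vertex -/
structure BilliardInvariantWeak {m : ℕ} (z : Fin (m + 3) → ℂ) (f : ℂ × ℂ → ℝ) : Prop where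
  flow : ∀ x ∈ openTable z, ∀ w : ℂ, ‖w‖ = 1 → ∀ t : ℝ, 0 ≤ t → x + t * w ∈ openTable z →
    f (x + t * w, w) = f (x, w)
  refl : ∀ i, ∀ x ∈ table z, cross (edge z i) (x - z i) = 0 → (∀ k, x ≠ z k) →
    ∀ w : ℂ, ‖w‖ = 1 → f (x, reflect (edge z i) w) = f (x, w)

section
variable {m : ℕ} {z : Fin (m + 3) → ℂ} {f : ℂ × ℂ → ℝ}

theorem cross_comb (e p q v : ℂ) (s : ℝ) :
    cross e (((1 - s : ℝ) : ℂ) * p + s * q - v) = (1 - s) * cross e (p - v) + s * cross e (q - v) := by
  simp only [cross, sub_re, sub_im, add_re, add_im, mul_re, mul_im, ofReal_re, ofReal_im]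
  ring

theorem comb_mem_table {p q : ℂ} (hp : p ∈ table z) (hq : q ∈ table z) {s : ℝ} (h0 : 0 ≤ s)
    (h1 : s ≤ 1) : ((1 - s : ℝ) : ℂ) * p + s * q ∈ table z := by
  intro i
  rw [cross_comb]
  have := hp i
  have := hq i
  have h2 : 0 ≤ 1 - s := by linarith
  positivity

theorem comb_mem_open {p q : ℂ} (hp : p ∈ table z) (hq : q ∈ openTable z) {s : ℝ} (h0 : 0 < s)
    (h1 : s ≤ 1) : ((1 - s : ℝ) : ℂ) * p + s * q ∈ openTable z := by
  intro i
  rw [cross_comb]
  have h3 := hp i
  have h4 := hq i
  have h2 : 0 ≤ 1 - s := by linarith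
  have h5 : 0 ≤ (1 - s) * cross (edge z i) (p - z i) := mul_nonneg h2 h3
  have h6 : 0 < s * cross (edge z i) (q - z i) := mul_pos h0 h4
  linarith

theorem tendsto_comb (hf : ContinuousOn f (table z ×ˢ Metric.sphere (0 : ℂ) 1)) {p q w : ℂ}
    (hp : p ∈ table z) (hq : q ∈ table z) (hw : ‖w‖ = 1) :
    Tendsto (fun s : ℝ => f (((1 - s : ℝ) : ℂ) * p + s * q, w)) (𝓝[>] (0 : ℝ)) (𝓝 (f (p, w))) := by
  have hmem : (p, w) ∈ table z ×ˢ Metric.sphere (0 : ℂ) 1 := ⟨hp, by simp [hw]⟩
  have h1 := hf (p, w) hmem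
  refine Tendsto.comp h1 ?_
  apply tendsto_nhdsWithin_of_tendsto_nhds_of_eventually_within
  · have hc : Continuous (fun s : ℝ => ((((1 - s : ℝ) : ℂ) * p + s * q, w) : ℂ × ℂ)) := by
      fun_prop
    have h2 := hc.tendsto 0
    have h3 : ((((1 - (0 : ℝ) : ℝ) : ℂ) * p + (0 : ℝ) * q, w) : ℂ × ℂ) = (p, w) := by simp
    rw [h3] at h2
    exact h2.mono_left nhdsWithin_le_nhds
  · have : ∀ᶠ s : ℝ in 𝓝[>] (0 : ℝ), s < 1 :=
      (gt_mem_nhds one_pos).filter_mono nhdsWithin_le_nhds
    filter_upwards [this, self_mem_nhdsWithin] with s hs hs0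
    exact ⟨comb_mem_table hp hq (le_of_lt hs0) hs.le, by simp [hw]⟩

/-- an interior point -/
theorem exists_open (hz : IsConvexPolygon z) (hv : ∀ i, z i ∈ table z) : ∃ q, q ∈ openTable z := by
  refine ⟨(((m + 3 : ℕ) : ℝ)⁻¹ : ℝ) * ∑ j, z j, ?_⟩
  intro i
  have hN : (0 : ℝ) < ((m + 3 : ℕ) : ℝ) := by positivity
  have h1 : ((((m + 3 : ℕ) : ℝ)⁻¹ : ℝ) : ℂ) * ∑ j, z j - z i
      = ((((m + 3 : ℕ) : ℝ)⁻¹ : ℝ) : ℂ) * ∑ j, (z j - z i) := by
    rw [Finset.sum_sub_distrib, Finset.sum_const, Finset.card_univ, Fintype.card_fin, mul_sub]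
    congr 1
    rw [nsmul_eq_mul, ← mul_assoc]
    push_cast
    have : ((m : ℂ) + 3) ≠ 0 := by exact_mod_cast (by positivity : (m + 3 : ℕ) ≠ 0)
    field_simp
  rw [h1, cross_smul]
  apply mul_pos (inv_pos.mpr hN)
  have h2 : cross (edge z i) (∑ j, (z j - z i)) = ∑ j, cross (edge z i) (z j - z i) := by
    induction (Finset.univ : Finset (Fin (m + 3))) using Finset.induction_on with
    | empty => simp [cross]
    | insert a s ha ih => rw [Finset.sum_insert ha, Finset.sum_insert ha, cross_add, ih]
  rw [h2]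
  apply Finset.sum_pos'
  · intro j _
    exact hv j i
  · refine ⟨i + 2, Finset.mem_univ _, hz i (i + 2) ?_ ?_⟩
    · intro h
      have h3 : (2 : Fin (m + 3)) = 0 := by simpa using h
      have h4 := congrArg Fin.val h3
      have h5 : ((2 : Fin (m + 3)) : ℕ) = 2 := by
        rw [Fin.coe_ofNat_eq_mod]
        exact Nat.mod_eq_of_lt (by omega)
      rw [h5] at h4
      simp at h4
    · intro h
      have h3 : (2 : Fin (m + 3)) = 1 := by simpa using h
      have h4 := congrArg Fin.val h3
      have h5 : ((2 : Fin (m + 3)) : ℕ) = 2 := by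
        rw [Fin.coe_ofNat_eq_mod]
        exact Nat.mod_eq_of_lt (by omega)
      rw [h5] at h4
      simp at h4

theorem weak_to_strong (hz : IsConvexPolygon z) (hv : ∀ i, z i ∈ table z)
    (he : ∀ i, edge z i ≠ 0)
    (hf : ContinuousOn f (table z ×ˢ Metric.sphere (0 : ℂ) 1))
    (h : BilliardInvariantWeak z f) : BilliardInvariant z f := by
  obtain ⟨q, hq⟩ := exists_open hz hv
  have hqt : q ∈ table z := fun i => (hq i).le
  constructor
  · intro x hx w hw t ht hxt
    have t1 := tendsto_comb hf hx hqt hw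
    have t2 := tendsto_comb hf hxt hqt hw
    refine tendsto_nhds_unique (t2.congr' ?_) t1
    have : ∀ᶠ s : ℝ in 𝓝[>] (0 : ℝ), s < 1 :=
      (gt_mem_nhds one_pos).filter_mono nhdsWithin_le_nhds
    filter_upwards [this, self_mem_nhdsWithin] with s hs hs0
    have h1 := comb_mem_open hx hq hs0 hs.le
    have h2 := comb_mem_open hxt hq hs0 hs.le
    have h3 : ((1 - s : ℝ) : ℂ) * (x + t * w) + s * q
        = (((1 - s : ℝ) : ℂ) * x + s * q) + (((1 - s) * t : ℝ) : ℂ) * w := by
      push_cast; ring
    rw [h3] at h2 ⊢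
    exact h.flow _ h1 w hw _ (mul_nonneg (by linarith) ht) h2
  · intro i x hx hxi w hw
    by_cases hxv : ∀ k, x ≠ z k
    · exact h.refl i x hx hxi hxv w hw
    · push Not at hxv
      obtain ⟨k, rfl⟩ := hxv
      have hk : k = i ∨ k = i + 1 := by
        by_contra hcon
        push Not at hcon
        have := hz i k hcon.1 hcon.2
        linarith
      -- the midpoint of the side
      set M : ℂ := ((1 - (1 / 2 : ℝ) : ℝ) : ℂ) * z i + ((1 / 2 : ℝ) : ℂ) * z (i + 1) with hM
      have hMt : M ∈ table z := comb_mem_table (hv i) (hv (i + 1)) (by norm_num) (by norm_num)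
      have hwr : ‖reflect (edge z i) w‖ = 1 := by rw [norm_reflect _ _ (he i), hw]
      have t1 := tendsto_comb hf hx hMt hw
      have t2 := tendsto_comb hf hx hMt hwr
      refine tendsto_nhds_unique (t2.congr' ?_) t1
      have : ∀ᶠ s : ℝ in 𝓝[>] (0 : ℝ), s < 1 :=
        (gt_mem_nhds one_pos).filter_mono nhdsWithin_le_nhds
      filter_upwards [this, self_mem_nhdsWithin] with s hs hs0
      have hs0' : 0 < s := hs0
      have hMi : cross (edge z i) (M - z i) = 0 := by
        rw [hM, cross_comb]
        simp only [cross, edge, sub_re, sub_im]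
        ring
      have hpt : cross (edge z i) (((1 - s : ℝ) : ℂ) * z k + s * M - z i) = 0 := by
        rw [cross_comb, hxi, hMi]; ring
      refine h.refl i _ (comb_mem_table hx hMt hs0'.le hs.le) hpt ?_ w hw
      intro l hl
      have hli : l = i ∨ l = i + 1 := by
        by_contra hcon
        push Not at hcon
        have h7 := hz i l hcon.1 hcon.2
        rw [← hl, hpt] at h7
        exact lt_irrefl _ h7
      have hei := he i
      have key : ∀ r : ℝ, 0 < r → r < 1 → (r : ℂ) * edge z i ≠ 0 ∧ (r : ℂ) * edge z i ≠ edge z i := by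
        intro r hr0 hr1
        refine ⟨mul_ne_zero (by exact_mod_cast hr0.ne') hei, ?_⟩
        intro h8
        have h9 : ((r : ℂ) - 1) * edge z i = 0 := by rw [sub_mul, h8]; ring
        rcases mul_eq_zero.mp h9 with h10 | h10
        · have : r = 1 := by
            have := sub_eq_zero.mp h10
            exact_mod_cast this
          linarith
        · exact hei h10
      have hed : z (i + 1) = z i + edge z i := by simp [edge]
      rcases hk with rfl | rfl
      · -- the point is `z k + (s/2) edge`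
        have h11 : ((1 - s : ℝ) : ℂ) * z k + s * M = z k + ((s / 2 : ℝ) : ℂ) * edge z k := by
          rw [hM, hed]; push_cast; ring
        rw [h11] at hl
        obtain ⟨k1, k2⟩ := key (s / 2) (by linarith) (by linarith)
        rcases hli with rfl | rfl
        · apply k1
          linear_combination hl
        · apply k2
          rw [hed] at hl
          linear_combination hl
      · have h11 : ((1 - s : ℝ) : ℂ) * z (i + 1) + s * M
            = z i + ((1 - s / 2 : ℝ) : ℂ) * edge z i := by
          rw [hM, hed]; push_cast; ring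
        rw [h11] at hl
        obtain ⟨k1, k2⟩ := key (1 - s / 2) (by linarith) (by linarith)
        rcases hli with rfl | rfl
        · apply k1
          linear_combination hl
        · apply k2
          rw [hed] at hl
          linear_combination hl

end

end Pool.Agent.H199BIL
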